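import Pool.Agent.H31.CF.U3

/-!
# Complete family (MP_347b49_nt): change of the level of the weights (LVL)
-/

set_option autoImplicit false

open MeasureTheory Set Filter
open scoped Real Matrix MatrixGroups

namespace Pool.Agent.H80.CFU

open Pool.Agent.H31.CN Pool.Agent.H91.CF Pool.Agent.H31.CF

theorem lvl_shift {A b k D : ℤ} (h : 4 * A ∣ b ^ 2 + D) : 4 * A ∣ (b + 2 * A * k) ^ 2 + D := by
  obtain ⟨c, hc⟩ := h
  exact ⟨c + b * k + A * k ^ 2, by linear_combination hc⟩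

/-- the value as a function of the integer `B` -/
noncomputable def lvlG (A : ℤ) (E : ℤ) (H : ℤ → ℤ → ℝ) (B : ℤ) : ℝ := H B ((B ^ 2 + E) / (4 * A))

theorem lvlG_per {A E : ℤ} {H : ℤ → ℤ → ℝ} (hA : A ≠ 0)
    (hH : ∀ B C, H (B + 2 * A) (A + B + C) = H B C) (B : ℤ) :
    lvlG A E H (B + 2 * A) = lvlG A E H B := by
  unfold lvlG
  rw [← hH B ((B ^ 2 + E) / (4 * A))]
  congr 1
  have h4 : (4 * A : ℤ) ≠ 0 := by simpa using hA
  have : (B + 2 * A) ^ 2 + E = (B ^ 2 + E) + (A + B) * (4 * A) := by ring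
  rw [this, Int.add_mul_ediv_right _ _ h4]
  ring

theorem lvlG_per' {A E : ℤ} {H : ℤ → ℤ → ℝ} (hA : A ≠ 0)
    (hH : ∀ B C, H (B + 2 * A) (A + B + C) = H B C) (B k : ℤ) :
    lvlG A E H (B + 2 * A * k) = lvlG A E H B := by
  have hp : Function.Periodic (lvlG A E H) (2 * A) := fun x => lvlG_per hA hH x
  have := (hp.int_mul k) B
  rw [← this]
  congr 1
  simp only [Int.cast_id]
  ring

/-- parity -/
theorem lvl_par {A b D : ℤ} (h : 4 * A ∣ b ^ 2 + D) :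
    b % 2 = D % 2 := by
  have h4 : (4 : ℤ) ∣ b ^ 2 + D := (Dvd.intro _ rfl).trans h
  rcases Int.emod_two_eq_zero_or_one b with hb | hb
  · obtain ⟨c, hc⟩ : ∃ c, b = 2 * c := ⟨b / 2, by omega⟩
    subst hc
    have : (4 : ℤ) ∣ D := by
      have h1 : (4 : ℤ) ∣ (2 * c) ^ 2 := ⟨c ^ 2, by ring⟩
      exact (Int.dvd_add_right h1).1 h4
    omega
  · obtain ⟨c, hc⟩ : ∃ c, b = 2 * c + 1 := ⟨b / 2, by omega⟩
    subst hc
    have : (4 : ℤ) ∣ 1 + D := by
      have h1 : (4 : ℤ) ∣ (2 * c + 1) ^ 2 - 1 := ⟨c ^ 2 + c, by ring⟩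
      have h2 := dvd_sub h4 h1
      have h3 : (2 * c + 1) ^ 2 + D - ((2 * c + 1) ^ 2 - 1) = 1 + D := by ring
      rwa [h3] at h2
    omega

/-- parity in the other direction -/
theorem lvl_par' {b D : ℤ} (hD : D % 4 = 0 ∨ D % 4 = 3) (h : b % 2 = D % 2) :
    (4 : ℤ) ∣ b ^ 2 + D := by
  rcases Int.emod_two_eq_zero_or_one b with hb | hb
  · obtain ⟨c, hc⟩ : ∃ c, b = 2 * c := ⟨b / 2, by omega⟩
    subst hc
    obtain ⟨e, he⟩ : ∃ e, D = 4 * e := ⟨D / 4, by omega⟩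
    subst he
    exact ⟨c ^ 2 + e, by ring⟩
  · obtain ⟨c, hc⟩ : ∃ c, b = 2 * c + 1 := ⟨b / 2, by omega⟩
    subst hc
    obtain ⟨e, he⟩ : ∃ e, D = 4 * e + 3 := ⟨D / 4, by omega⟩
    subst he
    exact ⟨c ^ 2 + c + e + 1, by ring⟩

/-- injectivity -/
theorem lvl_inj {A u b b' D : ℤ} (hA : IsCoprime A u)
    (h : 4 * A ∣ b ^ 2 + D) (h' : 4 * A ∣ b' ^ 2 + D)
    (he : 2 * A ∣ u * b - u * b') : 2 * A ∣ b - b' := by
  have hpar : (2 : ℤ) ∣ b - b' := by
    have h1 := lvl_par h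
    have h2 := lvl_par h'
    omega
  rcases Int.even_or_odd A with hAe | hAo
  · have hu : IsCoprime (2 : ℤ) u := by
      obtain ⟨c, hc⟩ := hAe
      exact IsCoprime.of_isCoprime_of_dvd_left hA ⟨c, by rw [hc]; ring⟩
    have h2A : IsCoprime (2 * A) u := IsCoprime.mul_left hu hA
    rw [← mul_sub] at he
    exact h2A.dvd_of_dvd_mul_left he
  · have h2 : IsCoprime (2 : ℤ) A := by
      obtain ⟨c, hc⟩ := hAo
      exact ⟨-c, 1, by rw [hc]; ring⟩
    have hAd : A ∣ b - b' := by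
      rw [← mul_sub] at he
      exact hA.dvd_of_dvd_mul_left ((Dvd.intro_left _ rfl).trans he)
    exact h2.mul_dvd hpar hAd

/-- surjectivity -/
theorem lvl_sur {A u B D : ℤ} (hA : IsCoprime A u)
    (hD : D % 4 = 0 ∨ D % 4 = 3) (h : 4 * A ∣ B ^ 2 + u ^ 2 * D) :
    ∃ b : ℤ, 2 * A ∣ u * b - B ∧ 4 * A ∣ b ^ 2 + D := by
  rcases Int.even_or_odd u with hue | huo
  · have hAo : IsCoprime (2 : ℤ) A := by
      obtain ⟨c, hc⟩ := hue
      exact (IsCoprime.of_isCoprime_of_dvd_right hA ⟨c, by rw [hc]; ring⟩).symm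
    obtain ⟨x, y, hxy⟩ := hA
    obtain ⟨z, t, hzt⟩ := hAo
    -- b0 = y B, u b0 = B - x A B
    obtain ⟨b, hb1, hb2⟩ : ∃ b : ℤ, A ∣ b - y * B ∧ (2 : ℤ) ∣ b - D := by
      refine ⟨y * B * (z * 2) + D * (t * A), ?_, ?_⟩
      · refine ⟨t * D - y * B * t, ?_⟩
        linear_combination (y * B) * hzt
      · refine ⟨y * B * z - D * z, ?_⟩
        linear_combination D * hzt
    have hBe : (2 : ℤ) ∣ B := by
      obtain ⟨c, hc⟩ := hue
      have h4 : (4 : ℤ) ∣ B ^ 2 + u ^ 2 * D := (Dvd.intro _ rfl).trans h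
      have h5 : (4 : ℤ) ∣ u ^ 2 * D := ⟨c ^ 2 * D, by rw [hc]; ring⟩
      have h6 : (4 : ℤ) ∣ B ^ 2 := (Int.dvd_add_left h5).1 h4
      exact Int.prime_two.dvd_of_dvd_pow ((by norm_num : (2 : ℤ) ∣ 4).trans h6)
    have h1 : A ∣ u * b - B := by
      obtain ⟨c, hc⟩ := hb1
      exact ⟨u * c - x * B, by linear_combination u * hc + B * hxy⟩
    have h2 : (2 : ℤ) ∣ u * b - B := by
      obtain ⟨c, hc⟩ := hue
      exact dvd_sub ⟨c * b, by rw [hc]; ring⟩ hBe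
    have h3 : (4 : ℤ) ∣ b ^ 2 + D := lvl_par' hD (by omega)
    have hcop : IsCoprime A u := ⟨x, y, hxy⟩
    have h2A : IsCoprime (2 : ℤ) A := ⟨z, t, hzt⟩
    have h4 : A ∣ b ^ 2 + D := by
      have h5 : A ∣ u ^ 2 * (b ^ 2 + D) := by
        obtain ⟨c, hc⟩ := h1
        obtain ⟨c', hc'⟩ := h
        exact ⟨c * (u * b + B) + 4 * c', by linear_combination (u * b + B) * hc + hc'⟩
      exact (IsCoprime.pow_right hcop).dvd_of_dvd_mul_left h5
    refine ⟨b, h2A.mul_dvd h2 h1, ?_⟩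
    have h44 : IsCoprime (4 : ℤ) A := by
      have : (4 : ℤ) = 2 ^ 2 := by norm_num
      rw [this]
      exact IsCoprime.pow_left h2A
    exact h44.mul_dvd h3 h4
  · have h2 : IsCoprime (2 : ℤ) u := by
      obtain ⟨c, hc⟩ := huo
      exact ⟨-c, 1, by rw [hc]; ring⟩
    have h2A : IsCoprime (2 * A) u := IsCoprime.mul_left h2 hA
    have h4A : IsCoprime (4 * A) u := by
      have : (4 * A : ℤ) = 2 * (2 * A) := by ring
      rw [this]
      exact IsCoprime.mul_left h2 h2A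
    obtain ⟨x, y, hxy⟩ := h2A
    refine ⟨y * B, ⟨-(x * B), by linear_combination B * hxy⟩, ?_⟩
    have h5 : 4 * A ∣ u ^ 2 * ((y * B) ^ 2 + D) := by
      obtain ⟨c', hc'⟩ := h
      refine ⟨c' - x * B ^ 2 + A * (x * B) ^ 2, ?_⟩
      have h6 : u * y = 1 - x * (2 * A) := by linear_combination hxy
      have h7 : u ^ 2 * ((y * B) ^ 2 + D) = (u * y) ^ 2 * B ^ 2 + u ^ 2 * D := by ring
      rw [h7, h6]
      linear_combination hc'
    exact (IsCoprime.pow_right h4A).dvd_of_dvd_mul_left h5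

theorem pf_LVL : T_LVL := by
  intro A u D H hA hu hcop hD hH
  have hA0 : (A : ℤ) ≠ 0 := by exact_mod_cast (by omega : A ≠ 0)
  have hA2 : 0 < 2 * A := by omega
  have hA2' : (0 : ℤ) < 2 * (A : ℤ) := by exact_mod_cast hA2
  have hcopZ : IsCoprime (A : ℤ) (u : ℤ) := Nat.isCoprime_iff_coprime.2 hcop
  have hDZ : (D : ℤ) % 4 = 0 ∨ (D : ℤ) % 4 = 3 := by omega
  have hdZ : ∀ b E : ℕ, 4 * A ∣ b ^ 2 + E ↔ (4 * (A : ℤ)) ∣ (b : ℤ) ^ 2 + (E : ℤ) := by
    intro b E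
    rw [← Int.natCast_dvd_natCast]
    push_cast
    rfl
  have hR : ∀ B ∈ (Finset.range (2 * A)).filter (fun B => 4 * A ∣ B ^ 2 + u ^ 2 * D),
      H B (((B ^ 2 + u ^ 2 * D) / (4 * A) : ℕ) : ℤ) = lvlG A ((u : ℤ) ^ 2 * D) H B := by
    intro B _
    unfold lvlG
    push_cast
    rfl
  have hL : ∀ b ∈ (Finset.range (2 * A)).filter (fun b => 4 * A ∣ b ^ 2 + D),
      H ((u : ℤ) * b) ((u : ℤ) ^ 2 * (((b ^ 2 + D) / (4 * A) : ℕ) : ℤ)) =
        lvlG A ((u : ℤ) ^ 2 * D) H ((u : ℤ) * b) := by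
    intro b hb
    have hb2 := (hdZ b D).1 (Finset.mem_filter.1 hb).2
    unfold lvlG
    congr 1
    push_cast
    rw [← Int.mul_ediv_assoc _ hb2]
    congr 1
    ring
  rw [Finset.sum_congr rfl hL, Finset.sum_congr rfl hR]
  refine Finset.sum_bij (fun b _ => (u * b) % (2 * A)) ?_ ?_ ?_ ?_
  · intro b hb
    have hb2 := (hdZ b D).1 (Finset.mem_filter.1 hb).2
    rw [Finset.mem_filter]
    refine ⟨Finset.mem_range.2 (Nat.mod_lt _ hA2), ?_⟩
    have := (hdZ ((u * b) % (2 * A)) (u ^ 2 * D)).2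
    apply this
    have h1 : (((u * b) % (2 * A) : ℕ) : ℤ) = (u : ℤ) * b + 2 * A * (-(((u : ℤ) * b) / (2 * A))) := by
      push_cast
      have := Int.emod_add_mul_ediv ((u : ℤ) * b) (2 * A)
      linear_combination this
    rw [h1]
    apply lvl_shift
    obtain ⟨c, hc⟩ := hb2
    push_cast
    exact ⟨u ^ 2 * c, by linear_combination (u : ℤ) ^ 2 * hc⟩
  · intro b hb b' hb' he
    have hb2 := (hdZ b D).1 (Finset.mem_filter.1 hb).2
    have hb2' := (hdZ b' D).1 (Finset.mem_filter.1 hb').2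
    have hlt := Finset.mem_range.1 (Finset.mem_filter.1 hb).1
    have hlt' := Finset.mem_range.1 (Finset.mem_filter.1 hb').1
    have h1 : (2 * (A : ℤ)) ∣ (u : ℤ) * b - (u : ℤ) * b' := by
      have h2 : (u * b) ≡ (u * b') [MOD (2 * A)] := he
      have h3 := (Nat.modEq_iff_dvd.1 h2.symm)
      push_cast at h3
      exact h3
    have h4 := lvl_inj hcopZ hb2 hb2' h1
    have h5 : b' ≡ b [MOD (2 * A)] := Nat.modEq_iff_dvd.2 (by push_cast; exact h4)
    exact (Nat.ModEq.eq_of_lt_of_lt h5 hlt' hlt).symm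
  · intro B hB
    have hB2 := (hdZ B (u ^ 2 * D)).1 (Finset.mem_filter.1 hB).2
    have hlt := Finset.mem_range.1 (Finset.mem_filter.1 hB).1
    push_cast at hB2
    obtain ⟨b, hb1, hb2⟩ := lvl_sur hcopZ hDZ hB2
    have hr0 : 0 ≤ b % (2 * A) := Int.emod_nonneg _ (ne_of_gt hA2')
    have hr1 : b % (2 * A) < 2 * A := Int.emod_lt_of_pos _ hA2'
    obtain ⟨r, hr⟩ := Int.eq_ofNat_of_zero_le hr0
    have hrb : (r : ℤ) = b + 2 * A * (-(b / (2 * A))) := by
      have := Int.emod_add_mul_ediv b (2 * A)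
      rw [← hr]
      linear_combination this
    have hrlt : r < 2 * A := by
      have : (r : ℤ) < 2 * A := by rw [← hr]; exact hr1
      exact_mod_cast this
    refine ⟨r, ?_, ?_⟩
    · rw [Finset.mem_filter]
      refine ⟨Finset.mem_range.2 hrlt, (hdZ r D).2 ?_⟩
      rw [hrb]
      exact lvl_shift hb2
    · have h3 : B ≡ u * r [MOD (2 * A)] := by
        rw [Nat.modEq_iff_dvd]
        push_cast
        rw [hrb]
        obtain ⟨c, hc⟩ := hb1
        exact ⟨c - u * (b / (2 * A)), by linear_combination hc⟩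
      have h4 : (u * r) % (2 * A) = B % (2 * A) := h3.symm
      rw [h4, Nat.mod_eq_of_lt hlt]
  · intro b hb
    have h1 : (((u * b) % (2 * A) : ℕ) : ℤ) = (u : ℤ) * b + 2 * A * (-(((u : ℤ) * b) / (2 * A))) := by
      push_cast
      have := Int.emod_add_mul_ediv ((u : ℤ) * b) (2 * A)
      linear_combination this
    rw [h1]
    exact (lvlG_per' hA0 hH _ _).symm

end Pool.Agent.H80.CFU
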