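import Pool.Agent.H31.CF.U4

/-!
# Complete family (MP_347b49_nt): the mean of the weight at level `(d s) ^ 2 Δ` (WBS)
-/

set_option autoImplicit false

open MeasureTheory Set Filter
open scoped Real

namespace Pool.Agent.H80.CFU

open Pool.Agent.H31.CN Pool.Agent.H91.CF Pool.Agent.H31.CF

/-- shift of a sum of a periodic function -/
theorem wbs_shift1 (Q : ℕ) (f : ℤ → ℝ) (hf : ∀ x, f (x + Q) = f x) :
    ∑ B ∈ Finset.range Q, f ((B : ℤ) + 1) = ∑ B ∈ Finset.range Q, f (B : ℤ) := by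
  have h1 := Finset.sum_range_succ (fun B : ℕ => f (B : ℤ)) Q
  have h2 := Finset.sum_range_succ' (fun B : ℕ => f (B : ℤ)) Q
  have h3 : f ((Q : ℕ) : ℤ) = f ((0 : ℕ) : ℤ) := by
    have := hf 0
    simpa using this
  have h4 : ∑ B ∈ Finset.range Q, f (((B + 1 : ℕ)) : ℤ) = ∑ B ∈ Finset.range Q, f ((B : ℤ) + 1) :=
    Finset.sum_congr rfl fun B _ => by push_cast; rfl
  rw [← h4]
  linarith

theorem wbs_shift (Q : ℕ) (f : ℤ → ℝ) (hf : ∀ x, f (x + Q) = f x) (t : ℤ) :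
    ∑ B ∈ Finset.range Q, f ((B : ℤ) + t) = ∑ B ∈ Finset.range Q, f (B : ℤ) := by
  have hstep : ∀ t : ℤ, ∑ B ∈ Finset.range Q, f ((B : ℤ) + (t + 1)) =
      ∑ B ∈ Finset.range Q, f ((B : ℤ) + t) := by
    intro t
    have := wbs_shift1 Q (fun x => f (x + t)) (fun x => by
      have := hf (x + t)
      rw [← this]
      congr 1
      ring)
    rw [← this]
    refine Finset.sum_congr rfl fun B _ => ?_
    congr 1
    ring
  induction t using Int.induction_on with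
  | zero => simp
  | succ i ih => rw [hstep, ih]
  | pred i ih =>
    have := hstep (-(i : ℤ) - 1)
    rw [← this]
    rw [show (-(i : ℤ) - 1 + 1) = -(i : ℤ) by ring]
    exact ih

/-- sums over the multiples of `m` -/
theorem wbs_mult (m n : ℕ) (hm : 1 ≤ m) (F : ℤ → ℝ) :
    ∑ B ∈ Finset.range (m * n), (if (m : ℤ) ∣ (B : ℤ) then F ((B : ℤ) / m) else 0) =
      ∑ β ∈ Finset.range n, F (β : ℤ) := by
  induction n with
  | zero => simp
  | succ n ih =>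
    rw [Nat.mul_succ, Finset.sum_range_succ, ← ih]
    rw [Finset.sum_range_add]
    congr 1
    rw [Finset.sum_eq_single_of_mem 0 (Finset.mem_range.2 (by omega))]
    · have h1 : ((m * n + 0 : ℕ) : ℤ) = (m : ℤ) * n := by push_cast; ring
      rw [h1, if_pos (dvd_mul_right _ _), Int.mul_ediv_cancel_left _ (by omega)]
    · intro i hi hi0
      have hi' := Finset.mem_range.1 hi
      rw [if_neg]
      intro h
      push_cast at h
      have h2 : (m : ℤ) ∣ (i : ℤ) := (Int.dvd_add_right (dvd_mul_right _ _)).1 h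
      have h3 : m ∣ i := by exact_mod_cast h2
      exact absurd (Nat.le_of_dvd (Nat.pos_of_ne_zero hi0) h3) (by omega)

/-- sums over several periods -/
theorem wbs_per (m q : ℕ) (F : ℤ → ℝ) (hF : ∀ x, F (x + q) = F x) :
    ∑ β ∈ Finset.range (m * q), F (β : ℤ) = (m : ℝ) * ∑ β ∈ Finset.range q, F (β : ℤ) := by
  induction m with
  | zero => simp
  | succ m ih =>
    rw [Nat.succ_mul, Finset.sum_range_add, ih]
    have h1 : ∑ x ∈ Finset.range q, F (((m * q + x : ℕ)) : ℤ) = ∑ β ∈ Finset.range q, F (β : ℤ) := by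
      rw [← wbs_shift q F hF ((m * q : ℕ) : ℤ)]
      refine Finset.sum_congr rfl fun x _ => ?_
      congr 1
      push_cast
      ring
    rw [h1]
    push_cast
    ring

/-- the term -/
noncomputable def wbsg (d s : ℕ) (w : ℤ → ℤ → ℝ) (B C : ℤ) : ℝ :=
  if ((d * s : ℕ) : ℤ) ∣ B ∧ ((s ^ 2 : ℕ) : ℤ) ∣ C ∧ IsCoprime (C / (s ^ 2 : ℕ)) (d : ℤ) then
    w (B / (d * s : ℕ)) (C / (s ^ 2 : ℕ)) else 0

/-- iterated periods -/
theorem wbs_itB {q : ℕ} {F : ℤ → ℝ} (hF : ∀ x, F (x + q) = F x) (x k : ℤ) :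
    F (x + k * q) = F x := by
  have hp : Function.Periodic F (q : ℤ) := hF
  have := (hp.int_mul k) x
  simpa using this

theorem wbsg_B {q d s : ℕ} {w : ℤ → ℤ → ℝ} (hd : 1 ≤ d) (hs : 1 ≤ s)
    (hB : ∀ B C, w (B + q) C = w B C) (B C : ℤ) :
    wbsg d s w (B + ((d * s) ^ 2 * q : ℕ)) C = wbsg d s w B C := by
  have hds : ((d * s : ℕ) : ℤ) ≠ 0 := by
    have : d * s ≠ 0 := Nat.mul_ne_zero (by omega) (by omega)
    exact_mod_cast this
  have h1 : (((d * s) ^ 2 * q : ℕ) : ℤ) = ((d * s : ℕ) : ℤ) * (((d * s : ℕ) : ℤ) * q) := by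
    push_cast; ring
  have h2 : ((d * s : ℕ) : ℤ) ∣ B + (((d * s) ^ 2 * q : ℕ) : ℤ) ↔ ((d * s : ℕ) : ℤ) ∣ B := by
    rw [h1]
    exact Int.dvd_add_left (dvd_mul_right _ _)
  have h3 : (B + (((d * s) ^ 2 * q : ℕ) : ℤ)) / ((d * s : ℕ) : ℤ) =
      B / ((d * s : ℕ) : ℤ) + ((d * s : ℕ) : ℤ) * q := by
    rw [h1, Int.add_mul_ediv_left _ _ hds]
  unfold wbsg
  rw [h3]
  by_cases h : ((d * s : ℕ) : ℤ) ∣ B ∧ ((s ^ 2 : ℕ) : ℤ) ∣ C ∧ IsCoprime (C / (s ^ 2 : ℕ)) (d : ℤ)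
  · rw [if_pos h, if_pos ⟨h2.2 h.1, h.2⟩]
    exact wbs_itB (F := fun x => w x (C / (s ^ 2 : ℕ))) (fun x => hB x _) _ _
  · rw [if_neg h, if_neg (fun h' => h ⟨h2.1 h'.1, h'.2⟩)]

theorem wbsg_C {q d s : ℕ} {w : ℤ → ℤ → ℝ} (hs : 1 ≤ s)
    (hC : ∀ B C, w B (C + q) = w B C) (B C : ℤ) :
    wbsg d s w B (C + ((d * s) ^ 2 * q : ℕ)) = wbsg d s w B C := by
  have hss : ((s ^ 2 : ℕ) : ℤ) ≠ 0 := by
    have : s ^ 2 ≠ 0 := pow_ne_zero _ (by omega)
    exact_mod_cast this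
  have h1 : (((d * s) ^ 2 * q : ℕ) : ℤ) = ((s ^ 2 : ℕ) : ℤ) * (((d ^ 2 : ℕ) : ℤ) * q) := by
    push_cast; ring
  have h2 : ((s ^ 2 : ℕ) : ℤ) ∣ C + (((d * s) ^ 2 * q : ℕ) : ℤ) ↔ ((s ^ 2 : ℕ) : ℤ) ∣ C := by
    rw [h1]
    exact Int.dvd_add_left (dvd_mul_right _ _)
  have h3 : (C + (((d * s) ^ 2 * q : ℕ) : ℤ)) / ((s ^ 2 : ℕ) : ℤ) =
      C / ((s ^ 2 : ℕ) : ℤ) + ((d ^ 2 : ℕ) : ℤ) * q := by
    rw [h1, Int.add_mul_ediv_left _ _ hss]
  have h4 : IsCoprime (C / ((s ^ 2 : ℕ) : ℤ) + ((d ^ 2 : ℕ) : ℤ) * q) (d : ℤ) ↔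
      IsCoprime (C / ((s ^ 2 : ℕ) : ℤ)) (d : ℤ) := by
    have h5 : ((d ^ 2 : ℕ) : ℤ) * q = (d : ℤ) * ((d : ℤ) * q) := by push_cast; ring
    rw [h5]
    exact IsCoprime.add_mul_left_left_iff
  unfold wbsg
  rw [h3]
  by_cases h : ((d * s : ℕ) : ℤ) ∣ B ∧ ((s ^ 2 : ℕ) : ℤ) ∣ C ∧ IsCoprime (C / (s ^ 2 : ℕ)) (d : ℤ)
  · rw [if_pos h, if_pos ⟨h.1, h2.2 h.2.1, h4.2 h.2.2⟩]
    exact wbs_itB (F := fun x => w (B / (d * s : ℕ)) x) (fun x => hC _ x) _ _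
  · rw [if_neg h, if_neg (fun h' => h ⟨h'.1, h2.1 h'.2.1, h4.1 h'.2.2⟩)]

/-- the sum of the terms with a translation -/
theorem wbsg_sum {q d s : ℕ} {w : ℤ → ℤ → ℝ} (hd : 1 ≤ d) (hs : 1 ≤ s)
    (hB : ∀ B C, w (B + q) C = w B C) (hC : ∀ B C, w B (C + q) = w B C) (A k : ℤ) :
    ∑ B ∈ Finset.range ((d * s) ^ 2 * q), ∑ C ∈ Finset.range ((d * s) ^ 2 * q),
        wbsg d s w ((B : ℤ) + 2 * A * k) ((C : ℤ) + B * k + A * k ^ 2) =
      ∑ B ∈ Finset.range ((d * s) ^ 2 * q), ∑ C ∈ Finset.range ((d * s) ^ 2 * q),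
        wbsg d s w (B : ℤ) (C : ℤ) := by
  have h1 : ∀ B : ℕ, ∑ C ∈ Finset.range ((d * s) ^ 2 * q),
      wbsg d s w ((B : ℤ) + 2 * A * k) ((C : ℤ) + B * k + A * k ^ 2) =
      ∑ C ∈ Finset.range ((d * s) ^ 2 * q), wbsg d s w ((B : ℤ) + 2 * A * k) (C : ℤ) := by
    intro B
    rw [← wbs_shift ((d * s) ^ 2 * q) (fun C => wbsg d s w ((B : ℤ) + 2 * A * k) C)
      (fun x => wbsg_C hs hC _ x) ((B : ℤ) * k + A * k ^ 2)]
    refine Finset.sum_congr rfl fun C _ => ?_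
    rw [add_assoc]
  rw [Finset.sum_congr rfl fun B _ => h1 B]
  rw [Finset.sum_comm]
  conv_rhs => rw [Finset.sum_comm]
  refine Finset.sum_congr rfl fun C _ => ?_
  exact wbs_shift ((d * s) ^ 2 * q) (fun B => wbsg d s w B (C : ℤ))
    (fun x => wbsg_B hd hs hB x _) (2 * A * k)

/-- the value of the sum -/
theorem wbsg_val {q d s : ℕ} {w : ℤ → ℤ → ℝ} (hd : 1 ≤ d) (hs : 1 ≤ s) (hdq : d ∣ q)
    (hB : ∀ B C, w (B + q) C = w B C) (hC : ∀ B C, w B (C + q) = w B C) :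
    ∑ B ∈ Finset.range ((d * s) ^ 2 * q), ∑ C ∈ Finset.range ((d * s) ^ 2 * q),
        wbsg d s w (B : ℤ) (C : ℤ) =
      ((d * s : ℕ) : ℝ) * ((d ^ 2 : ℕ) : ℝ) * ∑ B ∈ Finset.range q, ∑ C ∈ Finset.range q,
        (if Nat.Coprime C d then w B C else 0) := by
  have hds : 1 ≤ d * s := Nat.mul_pos hd hs
  have hss : 1 ≤ s ^ 2 := Nat.pow_pos hs
  -- inner sum
  have h1 : ∀ B : ℤ, ∑ C ∈ Finset.range ((d * s) ^ 2 * q), wbsg d s w B (C : ℤ) =
      if ((d * s : ℕ) : ℤ) ∣ B then ((d ^ 2 : ℕ) : ℝ) * ∑ C ∈ Finset.range q,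
        (if IsCoprime (C : ℤ) (d : ℤ) then w (B / (d * s : ℕ)) C else 0) else 0 := by
    intro B
    by_cases hBd : ((d * s : ℕ) : ℤ) ∣ B
    · rw [if_pos hBd]
      have h2 := wbs_mult (s ^ 2) (d ^ 2 * q) hss
        (fun C => if IsCoprime C (d : ℤ) then w (B / (d * s : ℕ)) C else 0)
      have h3 := wbs_per (d ^ 2) q
        (fun C => if IsCoprime C (d : ℤ) then w (B / (d * s : ℕ)) C else 0) (by
          intro x
          obtain ⟨q', hq'⟩ := hdq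
          have h5 : IsCoprime (x + (q : ℤ)) (d : ℤ) ↔ IsCoprime x (d : ℤ) := by
            rw [hq']
            push_cast
            exact IsCoprime.add_mul_left_left_iff
          show (if IsCoprime (x + (q : ℤ)) (d : ℤ) then w (B / (d * s : ℕ)) (x + q) else 0) =
            if IsCoprime x (d : ℤ) then w (B / (d * s : ℕ)) x else 0
          rw [hC]
          by_cases h : IsCoprime x (d : ℤ)
          · rw [if_pos h, if_pos (h5.2 h)]
          · rw [if_neg h, if_neg (fun h' => h (h5.1 h'))])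
      rw [h3] at h2
      rw [← h2]
      have h6 : (d * s) ^ 2 * q = s ^ 2 * (d ^ 2 * q) := by ring
      rw [h6]
      refine Finset.sum_congr rfl fun C _ => ?_
      unfold wbsg
      by_cases hC1 : ((s ^ 2 : ℕ) : ℤ) ∣ (C : ℤ)
      · rw [if_pos hC1]
        by_cases hC2 : IsCoprime ((C : ℤ) / ((s ^ 2 : ℕ) : ℤ)) (d : ℤ)
        · rw [if_pos ⟨hBd, hC1, hC2⟩, if_pos hC2]
        · rw [if_neg (fun h' => hC2 h'.2.2), if_neg hC2]
      · rw [if_neg hC1, if_neg (fun h' => hC1 h'.2.1)]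
    · rw [if_neg hBd]
      refine Finset.sum_eq_zero fun C _ => ?_
      unfold wbsg
      rw [if_neg (fun h' => hBd h'.1)]
  rw [Finset.sum_congr rfl fun (B : ℕ) _ => h1 (B : ℤ)]
  have h2 := wbs_mult (d * s) (d * s * q) hds
    (fun B => ((d ^ 2 : ℕ) : ℝ) * ∑ C ∈ Finset.range q,
        (if IsCoprime (C : ℤ) (d : ℤ) then w B C else 0))
  have h3 := wbs_per (d * s) q
    (fun B => ((d ^ 2 : ℕ) : ℝ) * ∑ C ∈ Finset.range q,
        (if IsCoprime (C : ℤ) (d : ℤ) then w B C else 0)) (by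
      intro x
      show ((d ^ 2 : ℕ) : ℝ) * ∑ C ∈ Finset.range q,
        (if IsCoprime (C : ℤ) (d : ℤ) then w (x + q) C else 0) = _
      simp only [hB])
  rw [h3] at h2
  have h6 : (d * s) ^ 2 * q = d * s * (d * s * q) := by ring
  rw [h6, h2, mul_assoc]
  refine congrArg (fun x : ℝ => ((d * s : ℕ) : ℝ) * x) ?_
  rw [Finset.mul_sum]
  refine Finset.sum_congr rfl fun B _ => ?_
  refine congrArg (fun x : ℝ => ((d ^ 2 : ℕ) : ℝ) * x) ?_
  refine Finset.sum_congr rfl fun C _ => ?_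
  by_cases h : Nat.Coprime C d
  · rw [if_pos h, if_pos (Nat.isCoprime_iff_coprime.2 h)]
  · rw [if_neg h, if_neg (fun h' => h (Nat.isCoprime_iff_coprime.1 h'))]

theorem pf_WBS : T_WBS := by
  intro q d s K w e A hq hd hs hdq hw
  unfold wbar
  by_cases hA : d ^ 2 ∣ A
  · rw [if_pos hA]
    have hB : ∀ B C, w e (A / d ^ 2) (B + q) C = w e (A / d ^ 2) B C := fun B C => hw.perB _ _ _ _
    have hC : ∀ B C, w e (A / d ^ 2) B (C + q) = w e (A / d ^ 2) B C := fun B C => hw.perC _ _ _ _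
    have h1 : ∀ B C : ℕ, ws d s w e A (B : ℤ) (C : ℤ) = ∑ k ∈ Finset.range s,
        wbsg d s (w e (A / d ^ 2)) ((B : ℤ) + 2 * (A : ℤ) * (k : ℤ))
          ((C : ℤ) + B * (k : ℤ) + (A : ℤ) * (k : ℤ) ^ 2) := by
      intro B C
      unfold ws wbsg
      rw [if_pos hA]
    have h2 : ∑ B ∈ Finset.range ((d * s) ^ 2 * q), ∑ C ∈ Finset.range ((d * s) ^ 2 * q),
        ws d s w e A (B : ℤ) (C : ℤ) = (s : ℝ) * (((d * s : ℕ) : ℝ) * ((d ^ 2 : ℕ) : ℝ) *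
          ∑ B ∈ Finset.range q, ∑ C ∈ Finset.range q,
            (if Nat.Coprime C d then w e (A / d ^ 2) B C else 0)) := by
      have h3 : ∀ B ∈ Finset.range ((d * s) ^ 2 * q), ∑ C ∈ Finset.range ((d * s) ^ 2 * q),
          ws d s w e A (B : ℤ) (C : ℤ) = ∑ k ∈ Finset.range s,
          ∑ C ∈ Finset.range ((d * s) ^ 2 * q),
          wbsg d s (w e (A / d ^ 2)) ((B : ℤ) + 2 * (A : ℤ) * (k : ℤ))
          ((C : ℤ) + B * (k : ℤ) + (A : ℤ) * (k : ℤ) ^ 2) := by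
        intro B _
        rw [Finset.sum_comm]
        exact Finset.sum_congr rfl fun C _ => h1 B C
      rw [Finset.sum_congr rfl h3, Finset.sum_comm]
      rw [Finset.sum_congr rfl fun (k : ℕ) _ =>
        (wbsg_sum hd hs hB hC (A : ℤ) (k : ℤ)).trans (wbsg_val hd hs hdq hB hC)]
      rw [Finset.sum_const, Finset.card_range, nsmul_eq_mul]
    rw [h2]
    unfold wbd
    have hd0 : (d : ℝ) ≠ 0 := by exact_mod_cast (by omega : d ≠ 0)
    have hs0 : (s : ℝ) ≠ 0 := by exact_mod_cast (by omega : s ≠ 0)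
    have hq0 : (q : ℝ) ≠ 0 := by exact_mod_cast (by omega : q ≠ 0)
    push_cast
    field_simp
  · rw [if_neg hA]
    have h1 : ∀ B C : ℤ, ws d s w e A B C = 0 := by
      intro B C
      unfold ws
      rw [if_neg hA]
    simp [h1]

end Pool.Agent.H80.CFU
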